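import Mathlib

/-!
General definitions and facts on finite reversible chains in continuous time.
-/

open scoped Matrix BigOperators

namespace Pool.Agent.Work.MP_bada7b_pr

section ExpLemmas

variable {Ω : Type} [Fintype Ω] [DecidableEq Ω]

set_option backward.isDefEq.respectTransparency false in
theorem hasSum_exp_mulVec (M : Matrix Ω Ω ℝ) (v : Ω → ℝ) (x : Ω) :
    HasSum (fun n : ℕ => ((n.factorial : ℝ)⁻¹) * ((M ^ n) *ᵥ v) x)
      ((NormedSpace.exp M *ᵥ v) x) := by
  open scoped Matrix.Norms.Operator in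
  have h : HasSum (fun n : ℕ => ((n.factorial : ℝ)⁻¹) • M ^ n) (NormedSpace.exp M) :=
    NormedSpace.exp_series_hasSum_exp' (𝕂 := ℝ) M
  have hc : Continuous (fun A : Matrix Ω Ω ℝ => (A *ᵥ v) x) := by
    simp only [Matrix.mulVec, dotProduct]
    fun_prop
  let φ : Matrix Ω Ω ℝ →+ ℝ :=
    { toFun := fun A => (A *ᵥ v) x
      map_zero' := by simp
      map_add' := by intro A B; simp [Matrix.add_mulVec] }
  have := h.map φ hc
  convert this using 1
  · funext n
    simp [φ, Matrix.smul_mulVec]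
  · rfl

/-- If `M` has nonnegative entries and `M v ≤ lam v` then `exp(tM) v ≤ e^(lam t) v`. -/
theorem exp_mulVec_le (M : Matrix Ω Ω ℝ) (hM : ∀ x y, 0 ≤ M x y) (lam : ℝ) (hlam : 0 ≤ lam)
    (v : Ω → ℝ) (hv : ∀ x, (M *ᵥ v) x ≤ lam * v x) (t : ℝ) (ht : 0 ≤ t) (x : Ω) :
    (NormedSpace.exp (t • M) *ᵥ v) x ≤ Real.exp (lam * t) * v x := by
  have hpow : ∀ n : ℕ, ∀ x, ((M ^ n) *ᵥ v) x ≤ lam ^ n * v x := by
    intro n
    induction n with
    | zero => intro x; simp
    | succ n ih =>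
      intro x
      rw [pow_succ', ← Matrix.mulVec_mulVec]
      calc (M *ᵥ (M ^ n *ᵥ v)) x = ∑ y, M x y * (M ^ n *ᵥ v) y := by
            simp [Matrix.mulVec, dotProduct]
        _ ≤ ∑ y, M x y * (lam ^ n * v y) :=
            Finset.sum_le_sum fun y _ => mul_le_mul_of_nonneg_left (ih y) (hM x y)
        _ = lam ^ n * (M *ᵥ v) x := by
            simp only [Matrix.mulVec, dotProduct, Finset.mul_sum]
            exact Finset.sum_congr rfl fun y _ => by ring
        _ ≤ lam ^ n * (lam * v x) := mul_le_mul_of_nonneg_left (hv x) (pow_nonneg hlam n)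
        _ = lam ^ (n + 1) * v x := by ring
  have h1 := hasSum_exp_mulVec (t • M) v x
  have h2 : HasSum (fun n : ℕ => ((n.factorial : ℝ)⁻¹) * (lam * t) ^ n * v x)
      (Real.exp (lam * t) * v x) := by
    have := NormedSpace.exp_series_hasSum_exp' (𝕂 := ℝ) (lam * t)
    rw [← Real.exp_eq_exp_ℝ] at this
    simp only [smul_eq_mul] at this
    exact this.mul_right (v x)
  refine hasSum_le (fun n => ?_) h1 h2
  rw [smul_pow, Matrix.smul_mulVec, Pi.smul_apply, smul_eq_mul, mul_assoc]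
  refine mul_le_mul_of_nonneg_left ?_ (by positivity)
  calc t ^ n * (M ^ n *ᵥ v) x ≤ t ^ n * (lam ^ n * v x) :=
        mul_le_mul_of_nonneg_left (hpow n x) (pow_nonneg ht n)
    _ = (lam * t) ^ n * v x := by rw [mul_pow]; ring

end ExpLemmas

end Pool.Agent.Work.MP_bada7b_pr
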